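import Mathlib

set_option autoImplicit false

/-!
The sphere `S_r` of `C[0,1]` admits `C^q` blid maps for no `q ≥ 1`: a Fréchet differentiable map
`H : C[0,1] → C[0,1]` which is the identity on `S_r` is the identity on the ball `B_r`.
-/

open Filter Topology Set

namespace Pool.Agent.Results.MP_a52dbe_an.NoBlidSphere

universe u

/-! ### Definitions -/

/-- `H` is a `C^q` blid map at `S` for `U`: a `C^q` map of the whole space with values in `U`, equal
to the identity on some neighbourhood `V ⊆ U` of `S`. -/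
def IsBlid {X : Type u} [NormedAddCommGroup X] [NormedSpace ℝ X] (q : WithTop ℕ∞) (S U : Set X)
    (H : X → X) : Prop :=
  ContDiff ℝ q H ∧ (∀ x, H x ∈ U) ∧ ∃ V ∈ 𝓝ˢ S, V ⊆ U ∧ ∀ x ∈ V, H x = x

/-- `S` admits `C^q` blid maps: there is one for every neighbourhood `U` of `S`. -/
def AdmitsBlid {X : Type u} [NormedAddCommGroup X] [NormedSpace ℝ X] (q : WithTop ℕ∞)
    (S : Set X) : Prop :=
  ∀ U ∈ 𝓝ˢ S, ∃ H : X → X, IsBlid q S U H

/-! ### A maximality argument -/

lemma walk {E : Type u} [MetricSpace E] [CompleteSpace E] {g f k : E → ℝ} (hg : Continuous g)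
    (hf : Continuous f) (hk : Continuous k) {r ε : ℝ}
    (hstep : ∀ x, g x < r → ∃ x', g x < g x' ∧ g x' ≤ r ∧ dist x x' ≤ 2 * (g x' - g x) ∧
      |f x' - f x| ≤ ε * (g x' - g x) ∧ k x' = k x) (x₀ : E) (hx₀ : g x₀ ≤ r) :
    ∃ x, g x = r ∧ |f x - f x₀| ≤ ε * (r - g x₀) ∧ k x = k x₀ := by
  classical
  let R : E → E → Prop := fun a b => dist a b ≤ 2 * (g b - g a) ∧ |f b - f a| ≤ ε * (g b - g a) ∧
    k b = k a
  have hrefl : ∀ a, R a a := fun a => by simp [R]
  have htrans : ∀ {a b c}, R a b → R b c → R a c := by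
    intro a b c h1 h2
    refine ⟨?_, ?_, h2.2.2.trans h1.2.2⟩
    · have := dist_triangle a b c
      have h3 := h1.1
      have h4 := h2.1
      linarith
    · have := abs_sub_le (f c) (f b) (f a)
      have h3 := h1.2.1
      have h4 := h2.2.1
      linarith
  let A := {x : E // g x ≤ r ∧ R x₀ x}
  let R' : A → A → Prop := fun a b => R a.1 b.1
  obtain ⟨m, hm⟩ : ∃ m : A, ∀ a, R' m a → R' a m := by
    refine exists_maximal_of_chains_bounded (fun c hc => ?_) (fun h1 h2 => htrans h1 h2)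
    rcases c.eq_empty_or_nonempty with rfl | hne
    · exact ⟨⟨x₀, hx₀, hrefl x₀⟩, fun a ha => absurd ha (notMem_empty a)⟩
    -- symmetric estimates in the chain
    have hsym : ∀ a ∈ c, ∀ b ∈ c, R' a b ∨ R' b a := by
      intro a ha b hb
      by_cases hab : a = b
      · subst hab; exact Or.inl (hrefl _)
      · exact hc ha hb hab
    have hd : ∀ a ∈ c, ∀ b ∈ c, dist a.1 b.1 ≤ 2 * |g b.1 - g a.1| := by
      intro a ha b hb
      rcases hsym a ha b hb with h | h
      · exact h.1.trans (by have := le_abs_self (g b.1 - g a.1); linarith)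
      · rw [dist_comm, abs_sub_comm]
        exact h.1.trans (by have := le_abs_self (g a.1 - g b.1); linarith)
    have hf' : ∀ a ∈ c, ∀ b ∈ c, |f b.1 - f a.1| ≤ ε * |g b.1 - g a.1| := by
      intro a ha b hb
      rcases hsym a ha b hb with h | h
      · have h0 : 0 ≤ g b.1 - g a.1 := by
          have := h.1; have h5 := dist_nonneg (x := a.1) (y := b.1); linarith
        rw [abs_of_nonneg h0]; exact h.2.1
      · have h0 : 0 ≤ g a.1 - g b.1 := by
          have := h.1; have h5 := dist_nonneg (x := b.1) (y := a.1); linarith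
        rw [abs_sub_comm, abs_sub_comm (g b.1), abs_of_nonneg h0]; exact h.2.1
    have hk' : ∀ a ∈ c, ∀ b ∈ c, k b.1 = k a.1 := by
      intro a ha b hb
      rcases hsym a ha b hb with h | h
      · exact h.2.2
      · exact h.2.2.symm
    -- the supremum of `g`
    set G : Set ℝ := (fun a : A => g a.1) '' c with hG
    have hGne : G.Nonempty := hne.image _
    have hGbdd : BddAbove G := ⟨r, by rintro _ ⟨a, -, rfl⟩; exact a.2.1⟩
    set s := sSup G with hs
    have hle : ∀ a ∈ c, g a.1 ≤ s := fun a ha => le_csSup hGbdd ⟨a, ha, rfl⟩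
    have hex : ∀ n : ℕ, ∃ a ∈ c, s - 1 / ((n : ℝ) + 1) < g a.1 := by
      intro n
      have h1 : s - 1 / ((n : ℝ) + 1) < s := by
        have : (0 : ℝ) < 1 / ((n : ℝ) + 1) := by positivity
        linarith
      obtain ⟨_, ⟨a, ha, rfl⟩, h2⟩ := exists_lt_of_lt_csSup hGne h1
      exact ⟨a, ha, h2⟩
    choose x hxc hx using hex
    have hgx : Tendsto (fun n => g (x n).1) atTop (𝓝 s) := by
      have h1 : Tendsto (fun n : ℕ => s - 1 / ((n : ℝ) + 1)) atTop (𝓝 (s - 0)) :=
        tendsto_const_nhds.sub tendsto_one_div_add_atTop_nhds_zero_nat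
      rw [sub_zero] at h1
      exact tendsto_of_tendsto_of_tendsto_of_le_of_le h1 tendsto_const_nhds
        (fun n => (hx n).le) (fun n => hle _ (hxc n))
    have hcauchy : CauchySeq fun n => (x n).1 := by
      refine Metric.cauchySeq_iff'.mpr fun δ hδ => ?_
      have h1 := (Metric.cauchySeq_iff'.mp hgx.cauchySeq) (δ / 2) (by positivity)
      obtain ⟨N, hN⟩ := h1
      refine ⟨N, fun n hn => ?_⟩
      have h2 := hN n hn
      rw [Real.dist_eq] at h2
      have h3 := hd _ (hxc N) _ (hxc n)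
      rw [dist_comm]
      linarith
    obtain ⟨y, hy⟩ := cauchySeq_tendsto_of_complete hcauchy
    have hgy : g y = s := tendsto_nhds_unique ((hg.tendsto y).comp hy) hgx
    have hub : ∀ a ∈ c, R a.1 y := by
      intro a ha
      have habs : |g y - g a.1| = g y - g a.1 := by
        rw [abs_of_nonneg]; rw [hgy]; exact sub_nonneg.mpr (hle a ha)
      refine ⟨?_, ?_, ?_⟩
      · have h1 : Tendsto (fun n => dist a.1 (x n).1) atTop (𝓝 (dist a.1 y)) :=
          tendsto_const_nhds.dist hy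
        have h2 : Tendsto (fun n => 2 * |g (x n).1 - g a.1|) atTop (𝓝 (2 * |g y - g a.1|)) :=
          ((((hg.tendsto y).comp hy).sub_const _).abs).const_mul 2
        have h3 := le_of_tendsto_of_tendsto' h1 h2 fun n => hd a ha _ (hxc n)
        rwa [habs] at h3
      · have h1 : Tendsto (fun n => |f (x n).1 - f a.1|) atTop (𝓝 |f y - f a.1|) :=
          (((hf.tendsto y).comp hy).sub_const _).abs
        have h2 : Tendsto (fun n => ε * |g (x n).1 - g a.1|) atTop (𝓝 (ε * |g y - g a.1|)) :=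
          ((((hg.tendsto y).comp hy).sub_const _).abs).const_mul ε
        have h3 := le_of_tendsto_of_tendsto' h1 h2 fun n => hf' a ha _ (hxc n)
        rwa [habs] at h3
      · have h1 : Tendsto (fun n => k (x n).1) atTop (𝓝 (k y)) := (hk.tendsto y).comp hy
        have h2 : (fun n => k (x n).1) = fun _ => k a.1 := by
          funext n; exact hk' a ha _ (hxc n)
        rw [h2] at h1
        exact tendsto_nhds_unique h1 tendsto_const_nhds |>.symm ▸ rfl
    obtain ⟨a, ha⟩ := hne
    refine ⟨⟨y, ?_, htrans a.2.2 (hub a ha)⟩, fun b hb => hub b hb⟩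
    rw [hgy, hs]
    exact csSup_le ⟨_, ⟨a, ha, rfl⟩⟩ (by rintro _ ⟨b, -, rfl⟩; exact b.2.1)
  have hgm : g m.1 = r := by
    by_contra hne
    obtain ⟨x', h1, h2, h3, h4, h5⟩ := hstep m.1 (lt_of_le_of_ne m.2.1 hne)
    have hR : R m.1 x' := ⟨h3, h4, h5⟩
    have := hm ⟨x', h2, htrans m.2.2 hR⟩ hR
    have h6 := this.1
    have h7 := dist_nonneg (x := x') (y := m.1)
    simp only at h6
    linarith
  refine ⟨m.1, hgm, ?_, m.2.2.2.2⟩
  have := m.2.2.2.1
  rwa [hgm] at this

/-! ### The tents -/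

/-- the space `C[0,1]` -/
abbrev CI : Type := C(unitInterval, ℝ)

/-- tent functions clustering at the point `c` -/
noncomputable def tent (c : unitInterval) (n : ℕ) : CI :=
  ⟨fun s => max 0 (1 - 8 * |3 ^ n * |(s : ℝ) - c| - 1 / 2|), by fun_prop⟩

lemma tent_nonneg (c : unitInterval) (n : ℕ) (s : unitInterval) : 0 ≤ tent c n s := le_max_left _ _

lemma tent_le_one (c : unitInterval) (n : ℕ) (s : unitInterval) : tent c n s ≤ 1 := by
  refine max_le zero_le_one ?_
  have := abs_nonneg (3 ^ n * |(s : ℝ) - c| - 1 / 2)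
  linarith

lemma tent_ne_zero {c : unitInterval} {n : ℕ} {s : unitInterval} (h : tent c n s ≠ 0) :
    3 / 8 < 3 ^ n * |(s : ℝ) - c| ∧ 3 ^ n * |(s : ℝ) - c| < 5 / 8 := by
  have h1 : 0 < 1 - 8 * |3 ^ n * |(s : ℝ) - c| - 1 / 2| := by
    by_contra hcon
    exact h (max_eq_left (not_lt.mp hcon))
  have h2 : |3 ^ n * |(s : ℝ) - c| - 1 / 2| < 1 / 8 := by linarith
  rw [abs_lt] at h2
  constructor <;> linarith [h2.1, h2.2]

lemma tent_disjoint {c : unitInterval} {n m : ℕ} {s : unitInterval} (hn : tent c n s ≠ 0)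
    (hm : tent c m s ≠ 0) : n = m := by
  have key : ∀ {n m : ℕ}, n < m → tent c n s ≠ 0 → tent c m s ≠ 0 → False := by
    intro n m hnm hn hm
    have h1 := (tent_ne_zero hn).1
    have h2 := (tent_ne_zero hm).2
    have h3 : (3 : ℝ) ^ (n + 1) ≤ 3 ^ m := pow_le_pow_right₀ (by norm_num) hnm
    have h4 : (3 : ℝ) ^ (n + 1) * |(s : ℝ) - c| ≤ 3 ^ m * |(s : ℝ) - c| :=
      mul_le_mul_of_nonneg_right h3 (abs_nonneg _)
    rw [pow_succ] at h4
    nlinarith
  rcases lt_trichotomy n m with h | h | h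
  · exact (key h hn hm).elim
  · exact h
  · exact (key h hm hn).elim

lemma sum_tent_le (c : unitInterval) (F : Finset ℕ) (s : unitInterval) :
    ∑ n ∈ F, tent c n s ≤ 1 := by
  by_cases h : ∃ n ∈ F, tent c n s ≠ 0
  · obtain ⟨n, hn, hne⟩ := h
    rw [Finset.sum_eq_single n]
    · exact tent_le_one c n s
    · intro m _ hmn
      by_contra hm
      exact hmn (tent_disjoint hm hne)
    · intro hn'; exact absurd hn hn'
  · push Not at h
    rw [Finset.sum_eq_zero h]
    exact zero_le_one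

lemma tendsto_tent (L : CI →L[ℝ] ℝ) (c : unitInterval) :
    Tendsto (fun n => L (tent c n)) atTop (𝓝 0) := by
  have hs : Summable fun n => |L (tent c n)| := by
    refine summable_of_sum_le (c := ‖L‖) (fun n => abs_nonneg _) fun F => ?_
    set a : ℕ → ℝ := fun n => if 0 ≤ L (tent c n) then 1 else -1 with ha
    have haabs : ∀ n, |a n| = 1 := by
      intro n
      simp only [ha]
      split_ifs <;> simp
    have haL : ∀ n, a n * L (tent c n) = |L (tent c n)| := by
      intro n
      simp only [ha]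
      split_ifs with h
      · rw [one_mul, abs_of_nonneg h]
      · rw [abs_of_neg (not_le.mp h)]; ring
    have h1 : L (∑ n ∈ F, a n • tent c n) = ∑ n ∈ F, |L (tent c n)| := by
      rw [map_sum]
      refine Finset.sum_congr rfl fun n _ => ?_
      rw [map_smul, smul_eq_mul, haL]
    have h2 : ‖∑ n ∈ F, a n • tent c n‖ ≤ 1 := by
      rw [ContinuousMap.norm_le _ zero_le_one]
      intro s
      rw [ContinuousMap.sum_apply, Real.norm_eq_abs]
      refine (Finset.abs_sum_le_sum_abs _ _).trans (le_trans (le_of_eq ?_) (sum_tent_le c F s))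
      refine Finset.sum_congr rfl fun n _ => ?_
      rw [ContinuousMap.smul_apply, smul_eq_mul, abs_mul, haabs, one_mul,
        abs_of_nonneg (tent_nonneg c n s)]
    rw [← h1]
    refine (le_abs_self _).trans ((L.le_opNorm _).trans ?_)
    exact mul_le_of_le_one_right (norm_nonneg _) h2
  exact (tendsto_zero_iff_abs_tendsto_zero _).mpr hs.tendsto_atTop_zero

lemma tent_eventually_zero (c t : unitInterval) : ∀ᶠ n in atTop, tent c n t = 0 := by
  by_cases h : t = c
  · subst h
    refine Eventually.of_forall fun n => ?_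
    by_contra hne
    have := (tent_ne_zero hne).1
    norm_num at this
  · have hpos : 0 < |(t : ℝ) - c| := by
      rw [abs_pos, sub_ne_zero]
      exact fun h' => h (Subtype.ext h')
    have h1 : Tendsto (fun n : ℕ => (3 : ℝ) ^ n * |(t : ℝ) - c|) atTop atTop :=
      (tendsto_pow_atTop_atTop_of_one_lt (by norm_num)).atTop_mul_const hpos
    filter_upwards [h1.eventually_ge_atTop (5 / 8)] with n hn
    by_contra hne
    exact absurd (tent_ne_zero hne).2 (not_lt.mpr hn)

/-- the peaks of the tents -/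
lemma exists_peak (c : unitInterval) (n : ℕ) :
    ∃ s : unitInterval, |(s : ℝ) - c| = (1 / 3) ^ n / 2 ∧ tent c n s = 1 := by
  have hn0 : (0 : ℝ) < (1 / 3) ^ n := by positivity
  have hn1 : ((1 : ℝ) / 3) ^ n ≤ 1 := pow_le_one₀ (by norm_num) (by norm_num)
  have h3 : (3 : ℝ) ^ n * ((1 / 3) ^ n / 2) = 1 / 2 := by
    rw [← mul_div_assoc, ← mul_pow]; norm_num
  have key : ∀ s : unitInterval, |(s : ℝ) - c| = (1 / 3) ^ n / 2 → tent c n s = 1 := by
    intro s hs
    change max 0 (1 - 8 * |3 ^ n * |(s : ℝ) - c| - 1 / 2|) = 1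
    rw [hs, h3]
    norm_num
  rcases le_total (c : ℝ) (1 / 2) with hc | hc
  · have h0 := c.2.1
    refine ⟨⟨c + (1 / 3) ^ n / 2, by linarith, by linarith⟩, ?_, ?_⟩
    · simp only [add_sub_cancel_left]
      exact abs_of_pos (by positivity)
    · refine key _ ?_
      simp only [add_sub_cancel_left]
      exact abs_of_pos (by positivity)
  · have h0 := c.2.2
    refine ⟨⟨c - (1 / 3) ^ n / 2, by linarith, by linarith⟩, ?_, ?_⟩
    · simp only [sub_sub_cancel_left, abs_neg]
      exact abs_of_pos (by positivity)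
    · refine key _ ?_
      simp only [sub_sub_cancel_left, abs_neg]
      exact abs_of_pos (by positivity)

/-! ### The local step -/

lemma exists_direction (L : CI →L[ℝ] ℝ) (x : CI) (t₀ : unitInterval) {η : ℝ} (hη : 0 < η) :
    ∃ u : CI, ‖u‖ ≤ 1 ∧ u t₀ = 0 ∧ |L u| ≤ η ∧ ∀ t : ℝ, 0 ≤ t → ‖x‖ + t - η ≤ ‖x + t • u‖ := by
  obtain ⟨c, hc⟩ : ∃ c : unitInterval, ‖x‖ = |x c| := by
    obtain ⟨c, -, hc⟩ := isCompact_univ.exists_isMaxOn univ_nonempty
      (f := fun s => |x s|) (by fun_prop)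
    refine ⟨c, le_antisymm ?_ (x.norm_coe_le_norm c)⟩
    rw [ContinuousMap.norm_le _ (abs_nonneg _)]
    exact fun s => hc (mem_univ s)
  choose s hs1 hs2 using exists_peak c
  obtain ⟨σ, hσ, hσx⟩ : ∃ σ : ℝ, |σ| = 1 ∧ σ * x c = |x c| := by
    rcases le_total 0 (x c) with h | h
    · exact ⟨1, by simp, by rw [one_mul, abs_of_nonneg h]⟩
    · exact ⟨-1, by simp, by rw [abs_of_nonpos h]; ring⟩
  have hsc : Tendsto s atTop (𝓝 c) := by
    rw [tendsto_iff_dist_tendsto_zero]
    have h1 : (fun n => dist (s n) c) = fun n => ((1 : ℝ) / 3) ^ n / 2 := by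
      funext n
      rw [Subtype.dist_eq, Real.dist_eq, hs1]
    rw [h1]
    have h2 := (tendsto_pow_atTop_nhds_zero_of_lt_one (r := (1 : ℝ) / 3) (by norm_num)
      (by norm_num)).div_const 2
    simpa using h2
  have hxs : Tendsto (fun n => σ * x (s n)) atTop (𝓝 (σ * x c)) :=
    ((x.continuous.tendsto c).comp hsc).const_mul σ
  have e1 : ∀ᶠ n in atTop, σ * x c - η < σ * x (s n) :=
    hxs.eventually_const_lt (by linarith)
  have e2 : ∀ᶠ n in atTop, |L (tent c n)| < η := by
    have := (tendsto_tent L c).abs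
    rw [abs_zero] at this
    exact this.eventually_lt_const hη
  obtain ⟨n, h1, h2, h3⟩ := (e1.and (e2.and (tent_eventually_zero c t₀))).exists
  refine ⟨σ • tent c n, ?_, ?_, ?_, ?_⟩
  · rw [norm_smul, Real.norm_eq_abs, hσ, one_mul, ContinuousMap.norm_le _ zero_le_one]
    intro r
    rw [Real.norm_eq_abs, abs_of_nonneg (tent_nonneg c n r)]
    exact tent_le_one c n r
  · rw [ContinuousMap.smul_apply, h3, smul_zero]
  · rw [map_smul, smul_eq_mul, abs_mul, hσ, one_mul]
    exact h2.le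
  · intro t ht
    have h4 : ‖(x + t • σ • tent c n) (s n)‖ ≤ ‖x + t • σ • tent c n‖ :=
      ContinuousMap.norm_coe_le_norm _ _
    rw [Real.norm_eq_abs] at h4
    refine le_trans ?_ h4
    rw [ContinuousMap.add_apply, ContinuousMap.smul_apply, ContinuousMap.smul_apply, hs2]
    have h5 : σ * (x (s n) + t • σ • (1 : ℝ)) ≤ |x (s n) + t • σ • (1 : ℝ)| := by
      refine (le_abs_self _).trans ?_
      rw [abs_mul, hσ, one_mul]
    refine le_trans ?_ h5
    have h6 : σ * σ = 1 := by
      have := abs_mul_abs_self σ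
      rw [hσ] at this
      linarith
    have h7 : σ * (x (s n) + t • σ • (1 : ℝ)) = σ * x (s n) + t * (σ * σ) := by
      simp only [smul_eq_mul]; ring
    rw [h7, h6, hc, ← hσx]
    linarith

lemma local_step (f : CI → ℝ) (hf : Differentiable ℝ f) (t₀ : unitInterval) {r ε : ℝ}
    (hε : 0 < ε) (x : CI) (hx : ‖x‖ < r) :
    ∃ x' : CI, ‖x‖ < ‖x'‖ ∧ ‖x'‖ ≤ r ∧ dist x x' ≤ 2 * (‖x'‖ - ‖x‖) ∧
      |f x' - f x| ≤ ε * (‖x'‖ - ‖x‖) ∧ x' t₀ = x t₀ := by
  -- differentiability at `x`
  have hd := (hf x).hasFDerivAt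
  have hη : 0 < ε / 8 := by positivity
  have h1 := hd.isLittleO.def hη
  rw [Metric.eventually_nhds_iff] at h1
  obtain ⟨δ, hδ, h1⟩ := h1
  set t : ℝ := min (δ / 2) (r - ‖x‖) with ht
  have ht0 : 0 < t := lt_min (by positivity) (by linarith)
  have ht1 : t ≤ δ / 2 := min_le_left _ _
  have ht2 : t ≤ r - ‖x‖ := min_le_right _ _
  obtain ⟨u, hu1, hu2, hu3, hu4⟩ := exists_direction (fderiv ℝ f x) x t₀
    (η := min (ε / 8) (t / 2)) (lt_min hη (by positivity))
  have hu5 := hu4 t ht0.le
  have hu6 : ‖x‖ + t / 2 ≤ ‖x + t • u‖ := by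
    have := min_le_right (ε / 8) (t / 2)
    linarith
  have htu : ‖t • u‖ ≤ t := by
    rw [norm_smul, Real.norm_eq_abs, abs_of_pos ht0]
    exact mul_le_of_le_one_right ht0.le hu1
  refine ⟨x + t • u, by linarith, ?_, ?_, ?_, ?_⟩
  · exact (norm_add_le _ _).trans (by linarith)
  · rw [dist_eq_norm, sub_add_cancel_left, norm_neg]
    linarith
  · have h2 := @h1 (x + t • u) (by
      rw [dist_eq_norm, add_sub_cancel_left]
      linarith)
    rw [add_sub_cancel_left, Real.norm_eq_abs, map_smul, smul_eq_mul] at h2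
    have h3 : |f (x + t • u) - f x| ≤ |f (x + t • u) - f x - t * (fderiv ℝ f x) u| +
        |t * (fderiv ℝ f x) u| := by
      have := abs_add_le (f (x + t • u) - f x - t * (fderiv ℝ f x) u) (t * (fderiv ℝ f x) u)
      simpa using this
    have h4 : |t * (fderiv ℝ f x) u| ≤ t * (ε / 8) := by
      rw [abs_mul, abs_of_pos ht0]
      exact mul_le_mul_of_nonneg_left (hu3.trans (min_le_left _ _)) ht0.le
    have h5 : ε / 8 * ‖t • u‖ ≤ ε / 8 * t := mul_le_mul_of_nonneg_left htu hη.le
    have h6 : ε * (t / 2) ≤ ε * (‖x + t • u‖ - ‖x‖) :=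
      mul_le_mul_of_nonneg_left (by linarith) hε.le
    have h7 : 0 < ε * t := by positivity
    linarith
  · rw [ContinuousMap.add_apply, ContinuousMap.smul_apply, hu2, smul_zero, add_zero]

/-- **Rigidity.** A Fréchet differentiable map of `C[0,1]` which is the identity on the sphere of
radius `r` is the identity on the ball of radius `r`. -/
theorem rigidity {r : ℝ} (H : CI → CI) (hH : Differentiable ℝ H)
    (hS : ∀ x : CI, ‖x‖ = r → H x = x) (y : CI) (hy : ‖y‖ ≤ r) : H y = y := by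
  ext t₀
  set f : CI → ℝ := fun x => H x t₀ with hf
  have hfd : Differentiable ℝ f :=
    (ContinuousMap.evalCLM ℝ t₀ : CI →L[ℝ] ℝ).differentiable.comp hH
  have key : ∀ ε : ℝ, 0 < ε → |f y - y t₀| ≤ ε * (r - ‖y‖) := by
    intro ε hε
    obtain ⟨x, hx1, hx2, hx3⟩ := walk (g := fun x : CI => ‖x‖) (f := f) (k := fun x : CI => x t₀)
      continuous_norm hfd.continuous (by fun_prop) (fun x hx => local_step f hfd t₀ hε x hx) y hy
    have hfx : f x = x t₀ := by
      simp only [hf]
      rw [hS x hx1]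
    rw [hfx, hx3, abs_sub_comm] at hx2
    exact hx2
  have h0 : |f y - y t₀| ≤ 0 := by
    refine le_of_forall_pos_le_add fun δ hδ => ?_
    rw [zero_add]
    have h1 := key (δ / (r - ‖y‖ + 1)) (by
      have : 0 ≤ r - ‖y‖ := by linarith
      positivity)
    refine h1.trans ?_
    have h2 : 0 ≤ r - ‖y‖ := by linarith
    rw [div_mul_eq_mul_div, div_le_iff₀ (by linarith)]
    nlinarith
  exact sub_eq_zero.mp (abs_nonpos_iff.mp h0)

/-- **Theorem.** For every `r > 0` and every `q ≥ 1` the sphere `S_r` of `C[0,1]` does not admit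
`C^q` blid maps. -/
theorem result (r : ℝ) (hr : 0 < r) (q : WithTop ℕ∞) (hq : 1 ≤ q) :
    ¬ AdmitsBlid q (Metric.sphere (0 : C(unitInterval, ℝ)) r) := by
  intro h
  obtain ⟨H, hH1, hH2, V, hV1, -, hV3⟩ := h ({0}ᶜ) (by
    rw [mem_nhdsSet_iff_forall]
    intro x hx
    refine isOpen_compl_singleton.mem_nhds ?_
    rintro rfl
    rw [mem_sphere_zero_iff_norm, norm_zero] at hx
    exact hr.ne hx)
  have h0 := rigidity H (hH1.differentiable (by
      intro hq0; rw [hq0] at hq; exact absurd hq (by simp)))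
    (fun x hx => hV3 x (subset_of_mem_nhdsSet hV1 (mem_sphere_zero_iff_norm.mpr hx)))
    0 (by rw [norm_zero]; exact hr.le)
  exact hH2 0 h0

end Pool.Agent.Results.MP_a52dbe_an.NoBlidSphere
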